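import Mathlib

open Module

namespace Pool.Agent.Results.MP_d88dfe_an.DevronProperty

/-! ### A staircase lemma -/

section Stair

variable {K U : Type*} [Field K] [AddCommGroup U] [Module K U]

/-- Composite of the first `m` operators `O`, started at offset `e`. -/
def stairG (O : ℕ → ℤ → U →ₗ[K] U) : ℕ → ℤ → (U →ₗ[K] U)
  | 0, _ => LinearMap.id
  | m + 1, e => (O m (e + m + 1)) ∘ₗ stairG O m e

/-- Composite of the operators `O 1, …, O m`. -/
def stairT (O : ℕ → ℤ → U →ₗ[K] U) : ℕ → ℤ → (U →ₗ[K] U)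
  | 0, _ => LinearMap.id
  | m + 1, e => (O (m + 1) (e + m + 1)) ∘ₗ stairT O m e

theorem stairG_succ_eq (O : ℕ → ℤ → U →ₗ[K] U) (m : ℕ) (e : ℤ) :
    stairG O (m + 1) e = stairT O m (e + 1) ∘ₗ O 0 (e + 1) := by
  induction m with
  | zero => simp [stairG, stairT]
  | succ m ih =>
    rw [stairG, ih, stairT, LinearMap.comp_assoc]
    have : e + ((m + 1 : ℕ) : ℤ) + 1 = e + 1 + (m : ℤ) + 1 := by push_cast; ring
    rw [this]

theorem stairT_comp_E (O E : ℕ → ℤ → U →ₗ[K] U) (M : ℕ)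
    (comm : ∀ m, m + 1 < M → ∀ e, O (m + 1) (e + 1) ∘ₗ E m e = E (m + 1) (e + 1) ∘ₗ O m (e + 1))
    (m : ℕ) (hm : m < M) (e : ℤ) :
    stairT O m e ∘ₗ E 0 e = E m (e + m) ∘ₗ stairG O m e := by
  induction m with
  | zero => simp [stairG, stairT]
  | succ m ih =>
    have ih' := ih (by omega)
    rw [stairT, stairG, LinearMap.comp_assoc, ih', ← LinearMap.comp_assoc, comm m hm (e + m),
      LinearMap.comp_assoc]
    have : e + ((m + 1 : ℕ) : ℤ) = e + (m : ℤ) + 1 := by push_cast; ring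
    rw [this]

theorem stair_inj (O E : ℕ → ℤ → U →ₗ[K] U) (M : ℕ)
    (comm : ∀ m, m + 1 < M → ∀ e, O (m + 1) (e + 1) ∘ₗ E m e = E (m + 1) (e + 1) ∘ₗ O m (e + 1))
    (inj : ∀ m, m + 1 < M → ∀ e (h : U), O m (e + 1) h = 0 → E m e h = 0 → h = 0)
    (m : ℕ) (hm : m < M) (e : ℤ) (g : U) (hg : stairG O m e g = 0) (hE : E 0 e g = 0) :
    g = 0 := by
  induction m with
  | zero => simpa [stairG] using hg
  | succ m ih =>
    apply ih (by omega)
    apply inj m hm (e + m)
    · simpa [stairG] using hg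
    · have := LinearMap.congr_fun (stairT_comp_E O E M comm m (by omega) e) g
      simp only [LinearMap.comp_apply, hE, map_zero] at this
      exact this.symm

theorem finrank_comap_ge [FiniteDimensional K U] (f : U →ₗ[K] U) (X S : Submodule K U)
    (hX : X ≠ ⊤) (hf : LinearMap.range f ≤ X) (hS : S ≤ X) :
    finrank K S + 1 ≤ finrank K (Submodule.comap f S) := by
  have h1 : Submodule.comap f S = LinearMap.ker (S.mkQ ∘ₗ f) := by
    rw [LinearMap.ker_comp, Submodule.ker_mkQ]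
  have h2 : LinearMap.range (S.mkQ ∘ₗ f) ≤ Submodule.map S.mkQ X := by
    rw [LinearMap.range_comp]
    exact Submodule.map_mono hf
  have h3 : Submodule.map S.mkQ X ≠ ⊤ := by
    intro h
    apply hX
    have h4 := Submodule.comap_map_mkQ S X
    rw [h, Submodule.comap_top, sup_eq_right.2 hS] at h4
    exact h4.symm
  have h5 := Submodule.finrank_lt (K := K) h3
  have h6 := Submodule.finrank_mono h2
  have h7 := LinearMap.finrank_range_add_finrank_ker (S.mkQ ∘ₗ f)
  have h8 := Submodule.finrank_quotient_add_finrank S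
  rw [h1]
  omega

theorem stair_finrank [FiniteDimensional K U] (O E : ℕ → ℤ → U →ₗ[K] U) (M : ℕ)
    (comm : ∀ m, m + 1 < M → ∀ e, O (m + 1) (e + 1) ∘ₗ E m e = E (m + 1) (e + 1) ∘ₗ O m (e + 1))
    (inj : ∀ m, m + 1 < M → ∀ e (h : U), O m (e + 1) h = 0 → E m e h = 0 → h = 0)
    (X : ℤ → Submodule K U) (hX : ∀ e, X e ≠ ⊤)
    (hO : ∀ e, LinearMap.range (O 0 e) ≤ X e) (hE : ∀ e, LinearMap.range (E 0 e) ≤ X e)
    (m : ℕ) (hm : m ≤ M) (e : ℤ) :
    m ≤ finrank K (LinearMap.ker (stairG O m e)) := by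
  induction m generalizing e with
  | zero => exact Nat.zero_le _
  | succ m ih =>
    have h1 := ih (by omega) (e + 1)
    set S : Submodule K U := X (e + 1) ⊓ LinearMap.ker (stairT O m (e + 1)) with hS
    have h2 : finrank K (LinearMap.ker (stairG O m (e + 1))) ≤ finrank K S := by
      have hmap : ∀ g : LinearMap.ker (stairG O m (e + 1)), E 0 (e + 1) g.1 ∈ S := by
        intro g
        refine ⟨hE (e + 1) ⟨g.1, rfl⟩, ?_⟩
        rw [SetLike.mem_coe, LinearMap.mem_ker]
        have h3 := LinearMap.congr_fun (stairT_comp_E O E M comm m (by omega) (e + 1)) g.1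
        simp only [LinearMap.comp_apply] at h3
        rw [h3, LinearMap.mem_ker.1 g.2, map_zero]
      let φ : LinearMap.ker (stairG O m (e + 1)) →ₗ[K] S :=
        LinearMap.codRestrict S ((E 0 (e + 1)).domRestrict _) hmap
      apply LinearMap.finrank_le_finrank_of_injective (f := φ)
      rw [← LinearMap.ker_eq_bot, LinearMap.ker_eq_bot']
      intro g hg
      have h4 : E 0 (e + 1) g.1 = 0 := congrArg Subtype.val hg
      exact Subtype.ext (stair_inj O E M comm inj m (by omega) (e + 1) g.1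
        (LinearMap.mem_ker.1 g.2) h4)
    have h3 := finrank_comap_ge (O 0 (e + 1)) (X (e + 1)) S (hX _) (hO _) inf_le_left
    have h4 : Submodule.comap (O 0 (e + 1)) S ≤ LinearMap.ker (stairG O (m + 1) e) := by
      intro g hg
      rw [LinearMap.mem_ker, stairG_succ_eq, LinearMap.comp_apply]
      exact LinearMap.mem_ker.1 hg.2
    have h5 := Submodule.finrank_mono h4
    omega

end Stair

/-! ### Periodic functions and operators -/

section Ops

variable {K : Type*} [Field K] (n : ℕ)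

variable (K) in
/-- `n`-periodic functions. -/
def Per : Submodule K (ℤ → K) where
  carrier := {h | ∀ k, h (k + n) = h k}
  add_mem' := by
    intro a b ha hb k
    simp only [Set.mem_ofPred_eq] at ha hb
    simp [ha k, hb k]
  zero_mem' := by intro k; rfl
  smul_mem' := by
    intro c a ha k
    simp only [Set.mem_ofPred_eq] at ha
    simp [ha k]

omit [Field K] in
theorem Per.add_mul {h : ℤ → K} (hh : ∀ k, h (k + n) = h k) (k j : ℤ) :
    h (k + n * j) = h k := by
  have hp : Function.Periodic h (n : ℤ) := hh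
  have := hp.int_mul j k
  rw [mul_comm]
  exact this

/-- restriction of a periodic function to one period -/
def Per.res : Per K n →ₗ[K] (Fin n → K) where
  toFun h := fun j => h.1 (j : ℤ)
  map_add' _ _ := rfl
  map_smul' _ _ := rfl

theorem Per.res_injective (hn : 0 < n) : Function.Injective (Per.res (K := K) n) := by
  rw [← LinearMap.ker_eq_bot, LinearMap.ker_eq_bot']
  intro h hh
  apply Subtype.ext
  funext k
  have hn' : (0 : ℤ) < n := by exact_mod_cast hn
  have h1 : h.1 (k % n) = h.1 k := by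
    have := Per.add_mul n (h := h.1) h.2 (k % n) (k / n)
    rw [Int.emod_add_mul_ediv] at this
    exact this.symm
  have h2 := congrFun hh ⟨(k % n).toNat, by
    have := Int.emod_lt_of_pos k hn'
    have := Int.emod_nonneg k hn'.ne'
    omega⟩
  have h3 : (((k % n).toNat : ℕ) : ℤ) = k % n := Int.toNat_of_nonneg (Int.emod_nonneg k hn'.ne')
  simp only [Per.res, LinearMap.coe_mk, AddHom.coe_mk, h3, Pi.zero_apply] at h2
  rw [← h1, h2]
  rfl

theorem Per.finiteDimensional (hn : 0 < n) : FiniteDimensional K (Per K n) :=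
  FiniteDimensional.of_injective (Per.res (K := K) n) (Per.res_injective n hn)

theorem Per.finrank_le (hn : 0 < n) : finrank K (Per K n) ≤ n := by
  have := LinearMap.finrank_le_finrank_of_injective (Per.res_injective (K := K) n hn)
  simpa using this

/-- The two-term operator. -/
def opO (p q : ℤ → K) (hp : ∀ i, p (i + 2 * n) = p i) (hq : ∀ i, q (i + 2 * n) = q i) (e : ℤ) :
    Per K n →ₗ[K] Per K n where
  toFun h := ⟨fun k => p (2 * k + e) * h.1 (k + 1) + q (2 * k + e) * h.1 k, by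
    intro k
    have h1 : 2 * (k + n) + e = 2 * k + e + 2 * n := by ring
    have h2 : k + n + 1 = k + 1 + n := by ring
    show p (2 * (k + n) + e) * h.1 (k + n + 1) + q (2 * (k + n) + e) * h.1 (k + n) = _
    rw [h1, h2, hp, hq, h.2, h.2]⟩
  map_add' := by
    intro a b
    apply Subtype.ext
    funext k
    show p (2 * k + e) * (a.1 (k + 1) + b.1 (k + 1)) + q (2 * k + e) * (a.1 k + b.1 k) =
      (p (2 * k + e) * a.1 (k + 1) + q (2 * k + e) * a.1 k) +
      (p (2 * k + e) * b.1 (k + 1) + q (2 * k + e) * b.1 k)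
    ring
  map_smul' := by
    intro c a
    apply Subtype.ext
    funext k
    show p (2 * k + e) * (c * a.1 (k + 1)) + q (2 * k + e) * (c * a.1 k) =
      c * (p (2 * k + e) * a.1 (k + 1) + q (2 * k + e) * a.1 k)
    ring

/-- The three-term operator. -/
def opE (r s t : ℤ → K) (hr : ∀ i, r (i + 2 * n) = r i) (hs : ∀ i, s (i + 2 * n) = s i)
    (ht : ∀ i, t (i + 2 * n) = t i) (e : ℤ) :
    Per K n →ₗ[K] Per K n where
  toFun h := ⟨fun k => r (2 * k + e) * h.1 (k + 1) + s (2 * k + e) * h.1 k +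
      t (2 * k + e) * h.1 (k - 1), by
    intro k
    have h1 : 2 * (k + n) + e = 2 * k + e + 2 * n := by ring
    have h2 : k + n + 1 = k + 1 + n := by ring
    have h3 : k + n - 1 = k - 1 + n := by ring
    show r (2 * (k + n) + e) * h.1 (k + n + 1) + s (2 * (k + n) + e) * h.1 (k + n) +
      t (2 * (k + n) + e) * h.1 (k + n - 1) = _
    rw [h1, h2, h3, hr, hs, ht, h.2, h.2, h.2]⟩
  map_add' := by
    intro a b
    apply Subtype.ext
    funext k
    show r (2 * k + e) * (a.1 (k + 1) + b.1 (k + 1)) + s (2 * k + e) * (a.1 k + b.1 k) +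
      t (2 * k + e) * (a.1 (k - 1) + b.1 (k - 1)) =
      (r (2 * k + e) * a.1 (k + 1) + s (2 * k + e) * a.1 k + t (2 * k + e) * a.1 (k - 1)) +
      (r (2 * k + e) * b.1 (k + 1) + s (2 * k + e) * b.1 k + t (2 * k + e) * b.1 (k - 1))
    ring
  map_smul' := by
    intro c a
    apply Subtype.ext
    funext k
    show r (2 * k + e) * (c * a.1 (k + 1)) + s (2 * k + e) * (c * a.1 k) +
      t (2 * k + e) * (c * a.1 (k - 1)) =
      c * (r (2 * k + e) * a.1 (k + 1) + s (2 * k + e) * a.1 k + t (2 * k + e) * a.1 (k - 1))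
    ring

end Ops

/-! ### One step of the map, at the level of vectors -/

section Vec

variable {K V : Type*} [Field K] [AddCommGroup V] [Module K V]

variable (K) in
/-- `χ` is a lift of the image of the polygon lifted by `ψ`. -/
structure Step (ψ χ : ℤ → V) : Prop where
  li2 : ∀ i (a b : K), a • ψ (i - 1) + b • ψ (i + 1) = 0 → a = 0 ∧ b = 0
  li3 : ∀ i (a b c : K), a • ψ (i - 2) + b • ψ i + c • ψ (i + 2) = 0 → a = 0 ∧ b = 0 ∧ c = 0
  ne : ∀ i, χ i ≠ 0
  memL : ∀ i, ∃ a b : K, χ i = a • ψ (i - 1) + b • ψ (i + 1)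
  memM : ∀ i, ∃ a b c : K, χ i = a • ψ (i - 2) + b • ψ i + c • ψ (i + 2)
  meet : ∀ i (x : V), (∃ a b : K, x = a • ψ (i - 1) + b • ψ (i + 1)) →
    (∃ a b c : K, x = a • ψ (i - 2) + b • ψ i + c • ψ (i + 2)) → ∃ l : K, l • χ i = x

theorem Step.not_both {ψ χ : ℤ → V} (h : Step K ψ χ) (i : ℤ)
    (h1 : ∃ a b c : K, ψ (i - 1) = a • ψ (i - 2) + b • ψ i + c • ψ (i + 2))
    (h2 : ∃ a b c : K, ψ (i + 1) = a • ψ (i - 2) + b • ψ i + c • ψ (i + 2)) : False := by
  obtain ⟨l, hl⟩ := h.meet i (ψ (i - 1)) ⟨1, 0, by simp⟩ h1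
  obtain ⟨l', hl'⟩ := h.meet i (ψ (i + 1)) ⟨0, 1, by simp⟩ h2
  have h3 := h.li2 i l' (-l) (by
    rw [← hl, ← hl', smul_smul, smul_smul]
    rw [← add_smul]
    ring_nf
    simp)
  have h4 : l = 0 := by simpa using h3.2
  have h5 : ψ (i - 1) = 0 := by rw [← hl, h4, zero_smul]
  have h6 := h.li2 i 1 0 (by simp [h5])
  exact one_ne_zero h6.1

/-- Four consecutive vertices of the same parity are independent if two steps are possible. -/
theorem Step.li4 {ψ χ ω : ℤ → V} (h : Step K ψ χ) (h' : Step K χ ω) (i : ℤ) (a b c d : K)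
    (he : a • ψ (i - 3) + b • ψ (i - 1) + c • ψ (i + 1) + d • ψ (i + 3) = 0) :
    a = 0 ∧ b = 0 ∧ c = 0 ∧ d = 0 := by
  by_cases hd : d = 0
  · subst hd
    have h1 := h.li3 (i - 1) a b c (by
      have e1 : i - 1 - 2 = i - 3 := by ring
      have e2 : i - 1 + 2 = i + 1 := by ring
      rw [e1, e2]
      simpa using he)
    exact ⟨h1.1, h1.2.1, h1.2.2, rfl⟩
  · exfalso
    set P : Submodule K V := Submodule.span K (Set.range ![ψ (i - 3), ψ (i - 1), ψ (i + 1)])
      with hP
    have m1 : ψ (i - 3) ∈ P := Submodule.subset_span ⟨0, rfl⟩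
    have m2 : ψ (i - 1) ∈ P := Submodule.subset_span ⟨1, rfl⟩
    have m3 : ψ (i + 1) ∈ P := Submodule.subset_span ⟨2, rfl⟩
    have m4 : ψ (i + 3) ∈ P := by
      have : ψ (i + 3) = (-d⁻¹) • (a • ψ (i - 3) + b • ψ (i - 1) + c • ψ (i + 1)) := by
        have h1 : d • ψ (i + 3) = -(a • ψ (i - 3) + b • ψ (i - 1) + c • ψ (i + 1)) := by
          rw [eq_neg_iff_add_eq_zero, add_comm]
          exact he
        have h2 : ψ (i + 3) = d⁻¹ • (d • ψ (i + 3)) := by
          rw [smul_smul, inv_mul_cancel₀ hd, one_smul]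
        rw [h2, h1, neg_smul, smul_neg]
      rw [this]
      exact P.smul_mem _ (P.add_mem (P.add_mem (P.smul_mem _ m1) (P.smul_mem _ m2))
        (P.smul_mem _ m3))
    have k1 : χ (i - 2) ∈ P := by
      obtain ⟨x, y, hxy⟩ := h.memL (i - 2)
      have e1 : i - 2 - 1 = i - 3 := by ring
      have e2 : i - 2 + 1 = i - 1 := by ring
      rw [hxy, e1, e2]
      exact P.add_mem (P.smul_mem _ m1) (P.smul_mem _ m2)
    have k2 : χ i ∈ P := by
      obtain ⟨x, y, hxy⟩ := h.memL i
      rw [hxy]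
      exact P.add_mem (P.smul_mem _ m2) (P.smul_mem _ m3)
    have k3 : χ (i + 2) ∈ P := by
      obtain ⟨x, y, hxy⟩ := h.memL (i + 2)
      have e1 : i + 2 - 1 = i + 1 := by ring
      have e2 : i + 2 + 1 = i + 3 := by ring
      rw [hxy, e1, e2]
      exact P.add_mem (P.smul_mem _ m3) (P.smul_mem _ m4)
    have k4 : χ (i - 1) ∈ P := by
      obtain ⟨x, y, z, hxy⟩ := h.memM (i - 1)
      have e1 : i - 1 - 2 = i - 3 := by ring
      have e2 : i - 1 + 2 = i + 1 := by ring
      rw [hxy, e1, e2]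
      exact P.add_mem (P.add_mem (P.smul_mem _ m1) (P.smul_mem _ m2)) (P.smul_mem _ m3)
    have k5 : χ (i + 1) ∈ P := by
      obtain ⟨x, y, z, hxy⟩ := h.memM (i + 1)
      have e1 : i + 1 - 2 = i - 1 := by ring
      have e2 : i + 1 + 2 = i + 3 := by ring
      rw [hxy, e1, e2]
      exact P.add_mem (P.add_mem (P.smul_mem _ m2) (P.smul_mem _ m3)) (P.smul_mem _ m4)
    set S : Submodule K V := Submodule.span K (Set.range ![χ (i - 2), χ i, χ (i + 2)])
      with hS
    have hli : LinearIndependent K ![χ (i - 2), χ i, χ (i + 2)] := by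
      rw [Fintype.linearIndependent_iff]
      intro g hg
      rw [Fin.sum_univ_three] at hg
      have := h'.li3 i (g 0) (g 1) (g 2) hg
      intro j
      fin_cases j
      · exact this.1
      · exact this.2.1
      · exact this.2.2
    have hSP : S ≤ P := by
      rw [hS, Submodule.span_le]
      rintro _ ⟨j, rfl⟩
      fin_cases j
      · exact k1
      · exact k2
      · exact k3
    have f1 : finrank K S = 3 := by
      have := finrank_span_eq_card hli
      simpa using this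
    have f2 : finrank K P ≤ 3 := by
      have := finrank_range_le_card (R := K) (b := ![ψ (i - 3), ψ (i - 1), ψ (i + 1)])
      simpa [Set.finrank] using this
    have : FiniteDimensional K P := FiniteDimensional.span_of_finite K (Set.finite_range _)
    have hEq : S = P := Submodule.eq_of_le_of_finrank_le hSP (by omega)
    have key : ∀ x ∈ P, ∃ a b c : K, x = a • χ (i - 2) + b • χ i + c • χ (i + 2) := by
      intro x hx
      rw [← hEq, hS, Submodule.mem_span_range_iff_exists_fun] at hx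
      obtain ⟨g, hg⟩ := hx
      rw [Fin.sum_univ_three] at hg
      exact ⟨g 0, g 1, g 2, hg.symm⟩
    exact h'.not_both i (key _ k4) (key _ k5)

/-- The intersection of the kernels of the two operators is zero if two steps are possible. -/
theorem Step.inj {ψ χ ω : ℤ → V} (h : Step K ψ χ) (h' : Step K χ ω) (p q r s t : ℤ → K)
    (hO : ∀ i, χ i = p i • ψ (i + 1) + q i • ψ (i - 1))
    (hE : ∀ i, χ i = r i • ψ (i + 2) + s i • ψ i + t i • ψ (i - 2)) (e : ℤ) (f : ℤ → K)
    (h1 : ∀ k, p (2 * k + (e + 1)) * f (k + 1) + q (2 * k + (e + 1)) * f k = 0)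
    (h2 : ∀ k, r (2 * k + e) * f (k + 1) + s (2 * k + e) * f k + t (2 * k + e) * f (k - 1) = 0)
    (k : ℤ) : f k = 0 := by
  by_contra hk
  obtain ⟨j, hj⟩ : ∃ j, j = 2 * k + e := ⟨_, rfl⟩
  have a1 : p (j + 1) * f (k + 1) + q (j + 1) * f k = 0 := by
    have := h1 k
    rwa [show 2 * k + (e + 1) = j + 1 by rw [hj]; ring] at this
  have a2 : p (j - 1) * f k + q (j - 1) * f (k - 1) = 0 := by
    have := h1 (k - 1)
    rwa [show 2 * (k - 1) + (e + 1) = j - 1 by rw [hj]; ring,
      show k - 1 + 1 = k by ring] at this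
  have a3 : p (j + 3) * f (k + 2) + q (j + 3) * f (k + 1) = 0 := by
    have := h1 (k + 1)
    rwa [show 2 * (k + 1) + (e + 1) = j + 3 by rw [hj]; ring,
      show k + 1 + 1 = k + 2 by ring] at this
  have b1 : r j * f (k + 1) + s j * f k + t j * f (k - 1) = 0 := by
    have := h2 k
    rwa [← hj] at this
  have b2 : r (j + 2) * f (k + 2) + s (j + 2) * f (k + 1) + t (j + 2) * f k = 0 := by
    have := h2 (k + 1)
    rwa [show 2 * (k + 1) + e = j + 2 by rw [hj]; ring,
      show k + 1 + 1 = k + 2 by ring, show k + 1 - 1 = k by ring] at this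
  have c1 : χ (j + 1) = p (j + 1) • ψ (j + 2) + q (j + 1) • ψ j := by
    have := hO (j + 1)
    rwa [show j + 1 + 1 = j + 2 by ring, show j + 1 - 1 = j by ring] at this
  have c2 : χ (j - 1) = p (j - 1) • ψ j + q (j - 1) • ψ (j - 2) := by
    have := hO (j - 1)
    rwa [show j - 1 + 1 = j by ring, show j - 1 - 1 = j - 2 by ring] at this
  have c3 : χ (j + 3) = p (j + 3) • ψ (j + 4) + q (j + 3) • ψ (j + 2) := by
    have := hO (j + 3)
    rwa [show j + 3 + 1 = j + 4 by ring, show j + 3 - 1 = j + 2 by ring] at this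
  have d1 : χ j = r j • ψ (j + 2) + s j • ψ j + t j • ψ (j - 2) := hE j
  have d2 : χ (j + 2) = r (j + 2) • ψ (j + 4) + s (j + 2) • ψ (j + 2) + t (j + 2) • ψ j := by
    have := hE (j + 2)
    rwa [show j + 2 + 2 = j + 4 by ring, show j + 2 - 2 = j by ring] at this
  -- nonvanishing of three coefficients
  have n1 : q (j - 1) ≠ 0 := by
    intro h0
    rw [h0, zero_mul, add_zero] at a2
    have h3 := (mul_eq_zero.1 a2).resolve_right hk
    exact h.ne (j - 1) (by rw [c2, h0, h3]; simp)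
  have n2 : p (j + 1) ≠ 0 := by
    intro h0
    rw [h0, zero_mul, zero_add] at a1
    have h3 := (mul_eq_zero.1 a1).resolve_right hk
    exact h.ne (j + 1) (by rw [c1, h0, h3]; simp)
  have n3 : p (j + 3) ≠ 0 := by
    intro h0
    have h3 : q (j + 3) ≠ 0 := by
      intro h4
      exact h.ne (j + 3) (by rw [c3, h0, h4]; simp)
    rw [h0, zero_mul, zero_add] at a3
    have h4 := (mul_eq_zero.1 a3).resolve_left h3
    rw [h4, mul_zero, zero_add] at a1
    have h5 := (mul_eq_zero.1 a1).resolve_right hk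
    have h6 := h'.li2 (j + 2) (q (j + 3)) (-p (j + 1)) (by
      rw [show j + 2 - 1 = j + 1 by ring, show j + 2 + 1 = j + 3 by ring, c1, c3, h0, h5]
      simp only [zero_smul, add_zero, zero_add, smul_smul, ← add_smul]
      rw [show q (j + 3) * p (j + 1) + -p (j + 1) * q (j + 3) = 0 by ring, zero_smul])
    exact h3 h6.1
  apply h'.not_both (j + 1)
  · refine ⟨t j / q (j - 1), r j / p (j + 1), 0, ?_⟩
    rw [show j + 1 - 1 = j by ring, show j + 1 - 2 = j - 1 by ring, zero_smul, add_zero, d1, c1, c2]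
    have e1 : s j = t j / q (j - 1) * p (j - 1) + r j / p (j + 1) * q (j + 1) := by
      field_simp
      apply mul_right_cancel₀ hk
      linear_combination (p (j + 1) * q (j - 1)) * b1 - (t j * p (j + 1)) * a2
        - (r j * q (j - 1)) * a1
    have e2 : r j = r j / p (j + 1) * p (j + 1) := by field_simp
    have e3 : t j = t j / q (j - 1) * q (j - 1) := by field_simp
    simp only [smul_add, smul_smul]
    rw [← e2, ← e3, e1, add_smul]
    abel
  · refine ⟨0, (s (j + 2) - r (j + 2) / p (j + 3) * q (j + 3)) / p (j + 1),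
      r (j + 2) / p (j + 3), ?_⟩
    rw [show j + 1 + 1 = j + 2 by ring, show j + 1 + 2 = j + 3 by ring, zero_smul, zero_add,
      d2, c1, c3]
    have e1 : t (j + 2) =
        (s (j + 2) - r (j + 2) / p (j + 3) * q (j + 3)) / p (j + 1) * q (j + 1) := by
      field_simp
      apply mul_right_cancel₀ hk
      linear_combination (p (j + 1) * p (j + 3)) * b2 - (r (j + 2) * p (j + 1)) * a3
        - (s (j + 2) * p (j + 3) - r (j + 2) * q (j + 3)) * a1
    have e2 : r (j + 2) = r (j + 2) / p (j + 3) * p (j + 3) := by field_simp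
    have e3 : s (j + 2) = (s (j + 2) - r (j + 2) / p (j + 3) * q (j + 3)) / p (j + 1) * p (j + 1) +
        r (j + 2) / p (j + 3) * q (j + 3) := by
      field_simp
      ring
    simp only [smul_add, smul_smul]
    rw [← e2, ← e1]
    nth_rewrite 1 [e3]
    rw [add_smul]
    abel

/-- Refactorisation of two consecutive steps. -/
theorem Step.comm {ψ χ ω : ℤ → V} (h : Step K ψ χ) (h' : Step K χ ω)
    (p q r s t p' q' r' s' t' : ℤ → K)
    (hO : ∀ i, χ i = p i • ψ (i + 1) + q i • ψ (i - 1))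
    (hE : ∀ i, χ i = r i • ψ (i + 2) + s i • ψ i + t i • ψ (i - 2))
    (hO' : ∀ i, ω i = p' i • χ (i + 1) + q' i • χ (i - 1))
    (hE' : ∀ i, ω i = r' i • χ (i + 2) + s' i • χ i + t' i • χ (i - 2)) (i : ℤ) :
    p' i * r (i + 1) = r' i * p (i + 2) ∧
    p' i * s (i + 1) + q' i * r (i - 1) = r' i * q (i + 2) + s' i * p i ∧
    p' i * t (i + 1) + q' i * s (i - 1) = s' i * q i + t' i * p (i - 2) ∧
    q' i * t (i - 1) = t' i * q (i - 2) := by
  have e1 := hO' i
  have e2 := hE' i
  rw [hE (i + 1), hE (i - 1)] at e1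
  rw [hO (i + 2), hO i, hO (i - 2)] at e2
  rw [e1] at e2
  rw [show i + 1 + 2 = i + 3 by ring, show i + 1 - 2 = i - 1 by ring,
    show i - 1 + 2 = i + 1 by ring, show i - 1 - 2 = i - 3 by ring,
    show i + 2 + 1 = i + 3 by ring, show i + 2 - 1 = i + 1 by ring,
    show i - 2 + 1 = i - 1 by ring, show i - 2 - 1 = i - 3 by ring] at e2
  have := h.li4 h' i (q' i * t (i - 1) - t' i * q (i - 2))
    (p' i * t (i + 1) + q' i * s (i - 1) - (s' i * q i + t' i * p (i - 2)))
    (p' i * s (i + 1) + q' i * r (i - 1) - (r' i * q (i + 2) + s' i * p i))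
    (p' i * r (i + 1) - r' i * p (i + 2)) (by
      rw [← sub_eq_zero] at e2
      rw [← e2]
      simp only [smul_add, smul_smul, sub_smul, add_smul]
      abel)
  exact ⟨sub_eq_zero.1 this.2.2.2, sub_eq_zero.1 this.2.2.1, sub_eq_zero.1 this.2.1,
    sub_eq_zero.1 this.1⟩

/-- Periodic coefficients of a step. -/
theorem Step.coef (n : ℕ) {ψ χ : ℤ → V} (h : Step K ψ χ) (hψ : ∀ i, ψ (i + 2 * n) = ψ i)
    (hχ : ∀ i, χ (i + 2 * n) = χ i) :
    ∃ p q r s t : ℤ → K, (∀ i, p (i + 2 * n) = p i) ∧ (∀ i, q (i + 2 * n) = q i) ∧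
      (∀ i, r (i + 2 * n) = r i) ∧ (∀ i, s (i + 2 * n) = s i) ∧ (∀ i, t (i + 2 * n) = t i) ∧
      (∀ i, χ i = p i • ψ (i + 1) + q i • ψ (i - 1)) ∧
      (∀ i, χ i = r i • ψ (i + 2) + s i • ψ i + t i • ψ (i - 2)) := by
  choose q p hpq using h.memL
  choose t s r hrst using h.memM
  have k1 : ∀ i, q (i + 2 * n) = q i ∧ p (i + 2 * n) = p i := by
    intro i
    have e1 := hpq (i + 2 * n)
    rw [hχ, hpq i, show i + 2 * n - 1 = i - 1 + 2 * n by ring,
      show i + 2 * n + 1 = i + 1 + 2 * n by ring, hψ, hψ] at e1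
    have := h.li2 i (q (i + 2 * n) - q i) (p (i + 2 * n) - p i) (by
      rw [← sub_eq_zero] at e1
      rw [← neg_eq_zero, ← e1]
      simp only [sub_smul]
      abel)
    exact ⟨sub_eq_zero.1 this.1, sub_eq_zero.1 this.2⟩
  have k2 : ∀ i, t (i + 2 * n) = t i ∧ s (i + 2 * n) = s i ∧ r (i + 2 * n) = r i := by
    intro i
    have e1 := hrst (i + 2 * n)
    rw [hχ, hrst i, show i + 2 * n - 2 = i - 2 + 2 * n by ring,
      show i + 2 * n + 2 = i + 2 + 2 * n by ring, hψ, hψ, hψ] at e1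
    have := h.li3 i (t (i + 2 * n) - t i) (s (i + 2 * n) - s i) (r (i + 2 * n) - r i) (by
      rw [← sub_eq_zero] at e1
      rw [← neg_eq_zero, ← e1]
      simp only [sub_smul]
      abel)
    exact ⟨sub_eq_zero.1 this.1, sub_eq_zero.1 this.2.1, sub_eq_zero.1 this.2.2⟩
  refine ⟨p, q, r, s, t, fun i => (k1 i).2, fun i => (k1 i).1, fun i => (k2 i).2.2,
    fun i => (k2 i).2.1, fun i => (k2 i).1, fun i => ?_, fun i => ?_⟩
  · rw [hpq i, add_comm]
  · rw [hrst i]
    abel

/-- The weights of the left null vector of the first step. -/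
theorem Step.weights {ψ χ : ℤ → V} (h : Step K ψ χ) (p q r s t : ℤ → K)
    (hO : ∀ i, χ i = p i • ψ (i + 1) + q i • ψ (i - 1))
    (hE : ∀ i, χ i = r i • ψ (i + 2) + s i • ψ i + t i • ψ (i - 2))
    (v : ℤ → V) (hv : ∀ j, v (j + 2) = v j) (hv0 : ∀ j, v j ≠ 0) (a b c : ℤ → K)
    (hvj : ∀ j, v j = a j • ψ (j - 1) + b j • ψ j + c j • ψ (j + 1)) :
    ∃ l : ℤ → K, (∀ i, l i * p i = - b (i + 1)) ∧ (∀ i, l i * q i = b (i - 1)) ∧
      (∀ i, l i * r i = c (i + 1)) ∧ (∀ i, l i * s i = a (i + 1) - c (i - 1)) ∧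
      (∀ i, l i * t i = - a (i - 1)) ∧ (∀ i, l i ≠ 0 ∨ l (i + 2) ≠ 0) := by
  have key : ∀ i, ∃ l : K, l • χ i = b (i - 1) • ψ (i - 1) + (- b (i + 1)) • ψ (i + 1) := by
    intro i
    apply h.meet i
    · exact ⟨_, _, rfl⟩
    · refine ⟨- a (i - 1), a (i + 1) - c (i - 1), c (i + 1), ?_⟩
      have e1 := hv (i - 1)
      rw [show i - 1 + 2 = i + 1 by ring, hvj, hvj, show i + 1 - 1 = i by ring,
        show i + 1 + 1 = i + 2 by ring, show i - 1 - 1 = i - 2 by ring,
        show i - 1 + 1 = i by ring, ← sub_eq_zero] at e1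
      rw [← sub_eq_zero, ← neg_eq_zero, ← e1]
      simp only [sub_smul, neg_smul]
      abel
  choose l hl using key
  have hl2 : ∀ i, l i • χ i = (- a (i - 1)) • ψ (i - 2) + (a (i + 1) - c (i - 1)) • ψ i +
      c (i + 1) • ψ (i + 2) := by
    intro i
    rw [hl i]
    have e1 := hv (i - 1)
    rw [show i - 1 + 2 = i + 1 by ring, hvj, hvj, show i + 1 - 1 = i by ring,
      show i + 1 + 1 = i + 2 by ring, show i - 1 - 1 = i - 2 by ring,
      show i - 1 + 1 = i by ring, ← sub_eq_zero] at e1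
    rw [← sub_eq_zero, ← neg_eq_zero, ← e1]
    simp only [sub_smul, neg_smul]
    abel
  have k1 : ∀ i, l i * p i = - b (i + 1) ∧ l i * q i = b (i - 1) := by
    intro i
    have e1 := hl i
    rw [hO i, ← sub_eq_zero] at e1
    have := h.li2 i (l i * q i - b (i - 1)) (l i * p i - (- b (i + 1))) (by
      rw [← e1]
      simp only [sub_smul, smul_add, smul_smul]
      abel)
    exact ⟨sub_eq_zero.1 this.2, sub_eq_zero.1 this.1⟩
  have k2 : ∀ i, l i * r i = c (i + 1) ∧ l i * s i = a (i + 1) - c (i - 1) ∧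
      l i * t i = - a (i - 1) := by
    intro i
    have e1 := hl2 i
    rw [hE i, ← sub_eq_zero] at e1
    have := h.li3 i (l i * t i - (- a (i - 1))) (l i * s i - (a (i + 1) - c (i - 1)))
      (l i * r i - c (i + 1)) (by
      rw [← e1]
      simp only [sub_smul, smul_add, smul_smul]
      abel)
    exact ⟨sub_eq_zero.1 this.2.2, sub_eq_zero.1 this.2.1, sub_eq_zero.1 this.1⟩
  refine ⟨l, fun i => (k1 i).1, fun i => (k1 i).2, fun i => (k2 i).1, fun i => (k2 i).2.1,
    fun i => (k2 i).2.2, ?_⟩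
  intro i
  by_contra hcon
  push Not at hcon
  obtain ⟨z1, z2⟩ := hcon
  have u1 := (k1 i).1
  have u2 := (k2 i).1
  have u3 := (k2 (i + 2)).2.2
  rw [z1, zero_mul] at u1 u2
  rw [z2, zero_mul, show i + 2 - 1 = i + 1 by ring] at u3
  apply hv0 (i + 1)
  rw [hvj (i + 1), ← u2, show b (i + 1) = 0 by simpa using u1.symm,
    show a (i + 1) = 0 by simpa using u3.symm]
  simp

variable (K) in
/-- The functional `h ↦ ∑_{k < n} l (2 k + e) h k`. -/
def leftNull (n : ℕ) (l : ℤ → K) (e : ℤ) : Per K n →ₗ[K] K where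
  toFun h := ∑ k ∈ Finset.range n, l (2 * (k : ℤ) + e) * h.1 (k : ℤ)
  map_add' := by
    intro a b
    rw [← Finset.sum_add_distrib]
    refine Finset.sum_congr rfl fun k _ => ?_
    show l (2 * (k : ℤ) + e) * (a.1 k + b.1 k) = _
    ring
  map_smul' := by
    intro c a
    rw [RingHom.id_apply, smul_eq_mul, Finset.mul_sum]
    refine Finset.sum_congr rfl fun k _ => ?_
    show l (2 * (k : ℤ) + e) * (c * a.1 k) = _
    ring

theorem leftNull_apply (n : ℕ) (l : ℤ → K) (e : ℤ) (h : Per K n) :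
    leftNull K n l e h = ∑ k ∈ Finset.range n, l (2 * (k : ℤ) + e) * h.1 (k : ℤ) := rfl

theorem leftNull_ker_ne_top (n : ℕ) (hn : 2 ≤ n) (l : ℤ → K) (e : ℤ)
    (hl : l e ≠ 0 ∨ l (e + 2) ≠ 0) : LinearMap.ker (leftNull K n l e) ≠ ⊤ := by
  intro htop
  have hall : ∀ h : Per K n, leftNull K n l e h = 0 := by
    intro h
    have : h ∈ LinearMap.ker (leftNull K n l e) := by rw [htop]; trivial
    exact LinearMap.mem_ker.1 this
  have key : ∀ j : ℕ, j < n → l (2 * (j : ℤ) + e) = 0 := by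
    intro j hj
    have hmem : (fun k : ℤ => if (n : ℤ) ∣ k - j then (1 : K) else 0) ∈ Per K n := by
      intro k
      show (if (n : ℤ) ∣ k + n - j then (1 : K) else 0) = if (n : ℤ) ∣ k - j then (1 : K) else 0
      have : (n : ℤ) ∣ k + n - j ↔ (n : ℤ) ∣ k - j := by
        rw [show k + n - j = k - j + n by ring]
        exact dvd_add_self_right
      simp [this]
    have h1 := hall ⟨_, hmem⟩
    rw [leftNull_apply, Finset.sum_eq_single j] at h1
    · simpa using h1
    · intro k hk hkj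
      have hk' := Finset.mem_range.1 hk
      have : ¬ ((n : ℤ) ∣ (k : ℤ) - j) := by
        intro hd
        have h2 := Int.eq_zero_of_abs_lt_dvd hd (by rw [abs_lt]; constructor <;> omega)
        omega
      simp [this]
    · intro hj'
      exact absurd (Finset.mem_range.2 hj) hj'
  have k0 := key 0 (by omega)
  have k1 := key 1 (by omega)
  rcases hl with h | h
  · exact h (by simpa using k0)
  · exact h (by simpa [add_comm] using k1)

/-- The main linear algebra statement: the vertices of one parity class of the `M`-th iterate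
satisfy (at least) `M` independent relations. -/
theorem core (n M : ℕ) (hn : 2 ≤ n) (hM : 1 ≤ M) (ψ : ℕ → ℤ → V)
    (hper : ∀ m ≤ M, ∀ i, ψ m (i + 2 * n) = ψ m i)
    (hstep : ∀ m < M, Step K (ψ m) (ψ (m + 1)))
    (v : ℤ → V) (hv : ∀ j, v (j + 2) = v j) (hv0 : ∀ j, v j ≠ 0) (a b c : ℤ → K)
    (ha : ∀ i, a (i + 2 * n) = a i) (hb : ∀ i, b (i + 2 * n) = b i)
    (hc : ∀ i, c (i + 2 * n) = c i)
    (hvj : ∀ j, v j = a j • ψ 0 (j - 1) + b j • ψ 0 j + c j • ψ 0 (j + 1)) (e : ℤ) :
    ∃ W : Submodule K (Per K n), finrank K W + M ≤ n ∧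
      ∀ f : Dual K V, ∃ w ∈ W, ∀ k, w.1 k = f (ψ M (2 * k + (e + M))) := by
  have hcoef : ∀ m, ∃ p q r s t : ℤ → K, (∀ i, p (i + 2 * n) = p i) ∧
      (∀ i, q (i + 2 * n) = q i) ∧
      (∀ i, r (i + 2 * n) = r i) ∧ (∀ i, s (i + 2 * n) = s i) ∧ (∀ i, t (i + 2 * n) = t i) ∧
      (m < M → (∀ i, ψ (m + 1) i = p i • ψ m (i + 1) + q i • ψ m (i - 1)) ∧
      (∀ i, ψ (m + 1) i = r i • ψ m (i + 2) + s i • ψ m i + t i • ψ m (i - 2))) := by
    intro m
    by_cases hm : m < M
    · obtain ⟨p, q, r, s, t, hp, hq, hr, hs, ht, hO, hE⟩ :=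
        (hstep m hm).coef n (hper m hm.le) (hper (m + 1) hm)
      exact ⟨p, q, r, s, t, hp, hq, hr, hs, ht, fun _ => ⟨hO, hE⟩⟩
    · exact ⟨0, 0, 0, 0, 0, fun _ => rfl, fun _ => rfl, fun _ => rfl, fun _ => rfl,
        fun _ => rfl, fun h => absurd h hm⟩
  choose p q r s t hp hq hr hs ht hOE using hcoef
  set O : ℕ → ℤ → Per K n →ₗ[K] Per K n := fun m e => opO n (p m) (q m) (hp m) (hq m) e with hOdef
  set E : ℕ → ℤ → Per K n →ₗ[K] Per K n :=
    fun m e => opE n (r m) (s m) (t m) (hr m) (hs m) (ht m) e with hEdef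
  have hfin : FiniteDimensional K (Per K n) := Per.finiteDimensional n (by omega)
  have comm : ∀ m, m + 1 < M → ∀ e, O (m + 1) (e + 1) ∘ₗ E m e = E (m + 1) (e + 1) ∘ₗ O m (e + 1) := by
    intro m hm e
    apply LinearMap.ext
    intro h
    apply Subtype.ext
    funext k
    obtain ⟨c1, c2, c3, c4⟩ := (hstep m (by omega)).comm (hstep (m + 1) hm) _ _ _ _ _ _ _ _ _ _
      (hOE m (by omega)).1 (hOE m (by omega)).2 (hOE (m + 1) hm).1 (hOE (m + 1) hm).2
      (2 * k + (e + 1))
    show p (m + 1) (2 * k + (e + 1)) * (r m (2 * (k + 1) + e) * h.1 (k + 1 + 1) +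
        s m (2 * (k + 1) + e) * h.1 (k + 1) + t m (2 * (k + 1) + e) * h.1 (k + 1 - 1)) +
      q (m + 1) (2 * k + (e + 1)) * (r m (2 * k + e) * h.1 (k + 1) +
        s m (2 * k + e) * h.1 k + t m (2 * k + e) * h.1 (k - 1)) =
      r (m + 1) (2 * k + (e + 1)) * (p m (2 * (k + 1) + (e + 1)) * h.1 (k + 1 + 1) +
        q m (2 * (k + 1) + (e + 1)) * h.1 (k + 1)) +
      s (m + 1) (2 * k + (e + 1)) * (p m (2 * k + (e + 1)) * h.1 (k + 1) +
        q m (2 * k + (e + 1)) * h.1 k) +
      t (m + 1) (2 * k + (e + 1)) * (p m (2 * (k - 1) + (e + 1)) * h.1 (k - 1 + 1) +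
        q m (2 * (k - 1) + (e + 1)) * h.1 (k - 1))
    rw [show 2 * k + (e + 1) + 1 = 2 * (k + 1) + e by ring,
      show 2 * k + (e + 1) + 2 = 2 * (k + 1) + (e + 1) by ring] at c1
    rw [show 2 * k + (e + 1) + 1 = 2 * (k + 1) + e by ring,
      show 2 * k + (e + 1) + 2 = 2 * (k + 1) + (e + 1) by ring,
      show 2 * k + (e + 1) - 1 = 2 * k + e by ring] at c2
    rw [show 2 * k + (e + 1) + 1 = 2 * (k + 1) + e by ring,
      show 2 * k + (e + 1) - 1 = 2 * k + e by ring,
      show 2 * k + (e + 1) - 2 = 2 * (k - 1) + (e + 1) by ring] at c3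
    rw [show 2 * k + (e + 1) - 1 = 2 * k + e by ring,
      show 2 * k + (e + 1) - 2 = 2 * (k - 1) + (e + 1) by ring] at c4
    rw [show k + 1 - 1 = k by ring, show k - 1 + 1 = k by ring]
    linear_combination h.1 (k + 1 + 1) * c1 + h.1 (k + 1) * c2 + h.1 k * c3 + h.1 (k - 1) * c4
  have inj : ∀ m, m + 1 < M → ∀ e (h : Per K n), O m (e + 1) h = 0 → E m e h = 0 → h = 0 := by
    intro m hm e h hO hE
    apply Subtype.ext
    funext k
    apply (hstep m (by omega)).inj (hstep (m + 1) hm) (p m) (q m) (r m) (s m) (t m)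
      (hOE m (by omega)).1 (hOE m (by omega)).2 e h.1
    · intro k
      exact congrFun (congrArg Subtype.val hO) k
    · intro k
      exact congrFun (congrArg Subtype.val hE) k
  obtain ⟨l, l1, l2, l3, l4, l5, l6⟩ := (hstep 0 (by omega)).weights (p 0) (q 0) (r 0) (s 0) (t 0)
    (hOE 0 (by omega)).1 (hOE 0 (by omega)).2 v hv hv0 a b c hvj
  have hX : ∀ e, LinearMap.ker (leftNull K n l e) ≠ ⊤ :=
    fun e => leftNull_ker_ne_top n hn l e (l6 e)
  have hO : ∀ e, LinearMap.range (O 0 e) ≤ LinearMap.ker (leftNull K n l e) := by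
    rintro e _ ⟨h, rfl⟩
    rw [LinearMap.mem_ker, leftNull_apply]
    obtain ⟨F, hF⟩ : ∃ F : ℕ → K, F = fun j : ℕ => - (b (2 * (j : ℤ) + e - 1) * h.1 j) := ⟨_, rfl⟩
    have h1 : ∀ k ∈ Finset.range n, l (2 * (k : ℤ) + e) * (O 0 e h).1 (k : ℤ) =
        F (k + 1) - F k := by
      intro k _
      rw [hF]
      show l (2 * (k : ℤ) + e) * (p 0 (2 * (k : ℤ) + e) * h.1 ((k : ℤ) + 1) +
        q 0 (2 * (k : ℤ) + e) * h.1 k) = - (b (2 * ((k + 1 : ℕ) : ℤ) + e - 1) * h.1 ((k + 1 : ℕ) : ℤ)) -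
        (- (b (2 * (k : ℤ) + e - 1) * h.1 k))
      have q1 := l1 (2 * (k : ℤ) + e)
      have q2 := l2 (2 * (k : ℤ) + e)
      rw [show 2 * ((k + 1 : ℕ) : ℤ) + e - 1 = 2 * (k : ℤ) + e + 1 by push_cast; ring,
        show ((k + 1 : ℕ) : ℤ) = (k : ℤ) + 1 by push_cast; ring]
      linear_combination h.1 ((k : ℤ) + 1) * q1 + h.1 (k : ℤ) * q2
    rw [Finset.sum_congr rfl h1, Finset.sum_range_sub, hF]
    have h2 := h.2 0
    have h3 := hb (e - 1)
    rw [zero_add] at h2
    show - (b (2 * (n : ℤ) + e - 1) * h.1 n) - - (b (2 * ((0 : ℕ) : ℤ) + e - 1) * h.1 ((0 : ℕ) : ℤ)) = 0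
    rw [h2, show 2 * (n : ℤ) + e - 1 = e - 1 + 2 * n by ring, h3]
    simp
  have hE : ∀ e, LinearMap.range (E 0 e) ≤ LinearMap.ker (leftNull K n l e) := by
    rintro e _ ⟨h, rfl⟩
    rw [LinearMap.mem_ker, leftNull_apply]
    obtain ⟨F, hF⟩ : ∃ F : ℕ → K, F = fun j : ℕ => c (2 * (j : ℤ) + e - 1) * h.1 j +
        a (2 * (j : ℤ) + e - 1) * h.1 (j - 1) := ⟨_, rfl⟩
    have h1 : ∀ k ∈ Finset.range n, l (2 * (k : ℤ) + e) * (E 0 e h).1 (k : ℤ) =
        F (k + 1) - F k := by
      intro k _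
      rw [hF]
      show l (2 * (k : ℤ) + e) * (r 0 (2 * (k : ℤ) + e) * h.1 ((k : ℤ) + 1) +
        s 0 (2 * (k : ℤ) + e) * h.1 k + t 0 (2 * (k : ℤ) + e) * h.1 ((k : ℤ) - 1)) =
        c (2 * ((k + 1 : ℕ) : ℤ) + e - 1) * h.1 ((k + 1 : ℕ) : ℤ) +
          a (2 * ((k + 1 : ℕ) : ℤ) + e - 1) * h.1 (((k + 1 : ℕ) : ℤ) - 1) -
        (c (2 * (k : ℤ) + e - 1) * h.1 k + a (2 * (k : ℤ) + e - 1) * h.1 ((k : ℤ) - 1))
      have q1 := l3 (2 * (k : ℤ) + e)
      have q2 := l4 (2 * (k : ℤ) + e)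
      have q3 := l5 (2 * (k : ℤ) + e)
      rw [show 2 * ((k + 1 : ℕ) : ℤ) + e - 1 = 2 * (k : ℤ) + e + 1 by push_cast; ring,
        show ((k + 1 : ℕ) : ℤ) - 1 = (k : ℤ) by push_cast; ring,
        show ((k + 1 : ℕ) : ℤ) = (k : ℤ) + 1 by push_cast; ring]
      linear_combination h.1 ((k : ℤ) + 1) * q1 + h.1 (k : ℤ) * q2 + h.1 ((k : ℤ) - 1) * q3
    rw [Finset.sum_congr rfl h1, Finset.sum_range_sub, hF]
    have h2 := h.2 0
    have h3 := h.2 (-1)
    rw [zero_add] at h2
    show c (2 * (n : ℤ) + e - 1) * h.1 n + a (2 * (n : ℤ) + e - 1) * h.1 (n - 1) -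
      (c (2 * ((0 : ℕ) : ℤ) + e - 1) * h.1 ((0 : ℕ) : ℤ) +
        a (2 * ((0 : ℕ) : ℤ) + e - 1) * h.1 (((0 : ℕ) : ℤ) - 1)) = 0
    rw [h2, show (n : ℤ) - 1 = -1 + n by ring, h3,
      show 2 * (n : ℤ) + e - 1 = e - 1 + 2 * n by ring, ha, hc]
    simp
  have hfr := stair_finrank O E M comm inj _ hX hO hE M le_rfl e
  have hval : ∀ m, m ≤ M → ∀ (f : Dual K V) (h0 : (fun k : ℤ => f (ψ 0 (2 * k + e))) ∈ Per K n)
      (k : ℤ), (stairG O m e ⟨_, h0⟩).1 k = f (ψ m (2 * k + (e + m))) := by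
    intro m
    induction m with
    | zero =>
      intro _ f h0 k
      simp [stairG]
    | succ m ih =>
      intro hm f h0 k
      have i1 := ih (by omega) f h0
      show p m (2 * k + (e + m + 1)) * (stairG O m e ⟨_, h0⟩).1 (k + 1) +
        q m (2 * k + (e + m + 1)) * (stairG O m e ⟨_, h0⟩).1 k = _
      rw [i1, i1, (hOE m (by omega)).1, map_add, map_smul, map_smul, smul_eq_mul, smul_eq_mul]
      rw [show 2 * k + (e + ((m + 1 : ℕ) : ℤ)) = 2 * k + (e + m + 1) by push_cast; ring,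
        show 2 * k + (e + (m : ℤ) + 1) + 1 = 2 * (k + 1) + (e + m) by ring,
        show 2 * k + (e + (m : ℤ) + 1) - 1 = 2 * k + (e + m) by ring]
  refine ⟨LinearMap.range (stairG O M e), ?_, ?_⟩
  · have h1 := LinearMap.finrank_range_add_finrank_ker (stairG O M e)
    have h2 := Per.finrank_le (K := K) n (by omega)
    omega
  · intro f
    have h0 : (fun k : ℤ => f (ψ 0 (2 * k + e))) ∈ Per K n := by
      intro k
      show f (ψ 0 (2 * (k + n) + e)) = f (ψ 0 (2 * k + e))
      rw [show 2 * (k + n) + e = 2 * k + e + 2 * n by ring, hper 0 (by omega)]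
    exact ⟨_, ⟨⟨_, h0⟩, rfl⟩, fun k => hval M le_rfl f h0 k⟩

end Vec

/-! ### Projective formulation -/

section Proj

open scoped LinearAlgebra.Projectivization

variable {K : Type*} [Field K]

variable (K) in
/-- Points of projective 3-space over `K`. -/
abbrev Pt : Type _ := ℙ K (Fin 4 → K)

/-- The line through two (distinct) points, as a linear subspace of `K^4`. -/
def join2 (X Y : Pt K) : Submodule K (Fin 4 → K) := X.submodule ⊔ Y.submodule

/-- The plane through three (non-collinear) points, as a linear subspace of `K^4`. -/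
def join3 (X Y Z : Pt K) : Submodule K (Fin 4 → K) := X.submodule ⊔ Y.submodule ⊔ Z.submodule

/-- `F(A)` is defined and equal to `B`: for every `i` the points `A (i-1)`, `A (i+1)` span a line,
the points `A (i-2)`, `A i`, `A (i+2)` span a plane, and `B i` is the unique common point of this
line and this plane. -/
def IsPentagramImage (A B : ℤ → Pt K) : Prop :=
  ∀ i, finrank K (join2 (A (i - 1)) (A (i + 1))) = 2 ∧
    finrank K (join3 (A (i - 2)) (A i) (A (i + 2))) = 3 ∧
    ∀ X : Pt K, (X.submodule ≤ join2 (A (i - 1)) (A (i + 1)) ∧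
      X.submodule ≤ join3 (A (i - 2)) (A i) (A (i + 2))) ↔ X = B i

/-- `F^k(A)` is defined and equal to `B`. -/
def IsIterate : ℕ → (ℤ → Pt K) → (ℤ → Pt K) → Prop
  | 0, A, B => B = A
  | k + 1, A, B => ∃ C, IsPentagramImage A C ∧ IsIterate k C B

/-- The faces of `A` pass alternately through `P` (even faces) and `Q` (odd faces). -/
def FacesAlternate (A : ℤ → Pt K) (P Q : Pt K) : Prop :=
  (∀ i, Even i → P.submodule ≤ join3 (A (i - 1)) (A i) (A (i + 1))) ∧
  (∀ i, Odd i → Q.submodule ≤ join3 (A (i - 1)) (A i) (A (i + 1)))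

theorem mem_join2 (X Y : Pt K) (x : Fin 4 → K) :
    x ∈ join2 X Y ↔ ∃ a b : K, x = a • X.rep + b • Y.rep := by
  rw [join2, X.submodule_eq, Y.submodule_eq, Submodule.mem_sup]
  constructor
  · rintro ⟨y, hy, z, hz, rfl⟩
    obtain ⟨a, rfl⟩ := Submodule.mem_span_singleton.1 hy
    obtain ⟨b, rfl⟩ := Submodule.mem_span_singleton.1 hz
    exact ⟨a, b, rfl⟩
  · rintro ⟨a, b, rfl⟩
    exact ⟨_, Submodule.smul_mem _ a (Submodule.mem_span_singleton_self _), _,
      Submodule.smul_mem _ b (Submodule.mem_span_singleton_self _), rfl⟩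

theorem mem_join3 (X Y Z : Pt K) (x : Fin 4 → K) :
    x ∈ join3 X Y Z ↔ ∃ a b c : K, x = a • X.rep + b • Y.rep + c • Z.rep := by
  rw [join3, Submodule.mem_sup]
  constructor
  · rintro ⟨y, hy, z, hz, rfl⟩
    obtain ⟨a, b, rfl⟩ := (mem_join2 X Y y).1 hy
    rw [Z.submodule_eq] at hz
    obtain ⟨c, rfl⟩ := Submodule.mem_span_singleton.1 hz
    exact ⟨a, b, c, rfl⟩
  · rintro ⟨a, b, c, rfl⟩
    refine ⟨_, (mem_join2 X Y _).2 ⟨a, b, rfl⟩, c • Z.rep, ?_, rfl⟩
    rw [Z.submodule_eq]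
    exact Submodule.smul_mem _ c (Submodule.mem_span_singleton_self _)

theorem rep_mem_iff (X : Pt K) (S : Submodule K (Fin 4 → K)) : X.submodule ≤ S ↔ X.rep ∈ S := by
  rw [X.submodule_eq, Submodule.span_singleton_le_iff_mem]

theorem join2_eq_span (X Y : Pt K) : join2 X Y = Submodule.span K (Set.range ![X.rep, Y.rep]) := by
  rw [join2, X.submodule_eq, Y.submodule_eq, ← Submodule.span_union]
  congr 1
  ext x
  simp

theorem join3_eq_span (X Y Z : Pt K) :
    join3 X Y Z = Submodule.span K (Set.range ![X.rep, Y.rep, Z.rep]) := by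
  rw [join3, X.submodule_eq, Y.submodule_eq, Z.submodule_eq, ← Submodule.span_union,
    ← Submodule.span_union]
  congr 1
  ext x
  simp

theorem li_of_join2 (X Y : Pt K) (h : finrank K (join2 X Y) = 2) (a b : K)
    (hab : a • X.rep + b • Y.rep = 0) : a = 0 ∧ b = 0 := by
  have hli : LinearIndependent K ![X.rep, Y.rep] := by
    rw [linearIndependent_iff_card_eq_finrank_span, Set.finrank, ← join2_eq_span, h]
    rfl
  exact LinearIndependent.pair_iff.1 hli a b hab

theorem li_of_join3 (X Y Z : Pt K) (h : finrank K (join3 X Y Z) = 3) (a b c : K)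
    (hab : a • X.rep + b • Y.rep + c • Z.rep = 0) : a = 0 ∧ b = 0 ∧ c = 0 := by
  have hli : LinearIndependent K ![X.rep, Y.rep, Z.rep] := by
    rw [linearIndependent_iff_card_eq_finrank_span, Set.finrank, ← join3_eq_span, h]
    rfl
  rw [Fintype.linearIndependent_iff] at hli
  have := hli ![a, b, c] (by
    rw [Fin.sum_univ_three]
    exact hab)
  exact ⟨this 0, this 1, this 2⟩

theorem IsPentagramImage.step {A B : ℤ → Pt K} (h : IsPentagramImage A B) :
    Step K (fun i => (A i).rep) (fun i => (B i).rep) where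
  li2 i a b hab := li_of_join2 _ _ (h i).1 a b hab
  li3 i a b c hab := li_of_join3 _ _ _ (h i).2.1 a b c hab
  ne i := (B i).rep_nonzero
  memL i := (mem_join2 _ _ _).1 ((rep_mem_iff _ _).1 (((h i).2.2 (B i)).2 rfl).1)
  memM i := (mem_join3 _ _ _ _).1 ((rep_mem_iff _ _).1 (((h i).2.2 (B i)).2 rfl).2)
  meet i x h1 h2 := by
    by_cases hx : x = 0
    · exact ⟨0, by simp [hx]⟩
    · have h3 := ((h i).2.2 (Projectivization.mk K x hx)).1 ⟨by
        rw [Projectivization.submodule_mk, Submodule.span_singleton_le_iff_mem]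
        exact (mem_join2 _ _ _).2 h1, by
        rw [Projectivization.submodule_mk, Submodule.span_singleton_le_iff_mem]
        exact (mem_join3 _ _ _ _).2 h2⟩
      have h4 : x ∈ (B i).submodule := by
        rw [← h3, Projectivization.submodule_mk]
        exact Submodule.mem_span_singleton_self _
      rw [(B i).submodule_eq] at h4
      exact Submodule.mem_span_singleton.1 h4

theorem IsPentagramImage.periodic {A B : ℤ → Pt K} (h : IsPentagramImage A B) (n : ℕ)
    (hA : ∀ i, A (i + 2 * n) = A i) (i : ℤ) : B (i + 2 * n) = B i := by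
  apply ((h i).2.2 _).1
  have h1 := ((h (i + 2 * n)).2.2 (B (i + 2 * n))).2 rfl
  rwa [show i + 2 * n - 1 = i - 1 + 2 * n by ring, show i + 2 * n + 1 = i + 1 + 2 * n by ring,
    show i + 2 * n - 2 = i - 2 + 2 * n by ring, show i + 2 * n + 2 = i + 2 + 2 * n by ring,
    hA, hA, hA, hA, hA] at h1

theorem IsIterate.seq (k : ℕ) (A B : ℤ → Pt K) (h : IsIterate k A B) :
    ∃ C : ℕ → ℤ → Pt K, C 0 = A ∧ C k = B ∧ ∀ m < k, IsPentagramImage (C m) (C (m + 1)) := by
  induction k generalizing A with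
  | zero => exact ⟨fun _ => A, rfl, h.symm, fun m hm => absurd hm (by omega)⟩
  | succ k ih =>
    obtain ⟨C, h1, h2⟩ := h
    obtain ⟨D, d1, d2, d3⟩ := ih C h2
    refine ⟨fun m => Nat.casesOn m A (fun m => D m), rfl, d2, ?_⟩
    intro m hm
    cases m with
    | zero =>
      show IsPentagramImage A (D 0)
      rw [d1]
      exact h1
    | succ m => exact d3 m (by omega)

/-- All vertices in one parity class of `F^(n-3)(A)` lie in one plane. -/
theorem parity_coplanar (n : ℕ) (hn : 4 ≤ n) (A B : ℤ → Pt K) (hA : ∀ i, A (i + 2 * n) = A i)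
    (P Q : Pt K) (hPQ : FacesAlternate A P Q) (hB : IsIterate (n - 3) A B) (e : ℤ) :
    ∃ S : Submodule K (Fin 4 → K), finrank K S = 3 ∧ ∀ k, (B (2 * k + e)).submodule ≤ S := by
  obtain ⟨C, c0, cM, cs⟩ := IsIterate.seq _ A B hB
  obtain ⟨M, hM⟩ : ∃ M, M = n - 3 := ⟨_, rfl⟩
  rw [← hM] at cM cs
  have hper : ∀ m ≤ M, ∀ i, C m (i + 2 * n) = C m i := by
    intro m
    induction m with
    | zero => intro _ i; rw [c0, hA]
    | succ m ih => intro hm i; exact (cs m (by omega)).periodic n (ih (by omega)) i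
  have hv : ∀ j : ℤ, ∃ a b c : K, (if Even j then P.rep else Q.rep) =
      a • (A (j - 1)).rep + b • (A j).rep + c • (A (j + 1)).rep := by
    intro j
    by_cases hj : Even j
    · rw [if_pos hj]
      exact (mem_join3 _ _ _ _).1 ((rep_mem_iff _ _).1 (hPQ.1 j hj))
    · rw [if_neg hj]
      exact (mem_join3 _ _ _ _).1 ((rep_mem_iff _ _).1 (hPQ.2 j (Int.not_even_iff_odd.1 hj)))
  choose a b c habc using hv
  have hpar : ∀ j : ℤ, Even (j % (2 * n)) ↔ Even j := by
    intro j
    have h1 : j = j % (2 * n) + 2 * n * (j / (2 * n)) := (Int.emod_add_mul_ediv j (2 * n)).symm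
    conv_rhs => rw [h1]
    rw [Int.even_add]
    have h2 : Even (2 * (n : ℤ) * (j / (2 * n))) := ⟨n * (j / (2 * n)), by ring⟩
    simp [h2]
  have hAmod : ∀ j i : ℤ, A (j % (2 * n) + i) = A (j + i) := by
    intro j i
    have hp : Function.Periodic A (2 * (n : ℤ)) := hA
    have h1 := hp.int_mul (j / (2 * n)) (j % (2 * n) + i)
    rw [← h1]
    congr 1
    have h2 : j = j % (2 * n) + 2 * n * (j / (2 * n)) := (Int.emod_add_mul_ediv j (2 * n)).symm
    simp only [Int.cast_id]
    linear_combination -h2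
  have hcore := core (K := K) (V := Fin 4 → K) n M (by omega) (by omega)
    (fun m i => (C m i).rep) (fun m hm i => by simp only [hper m hm i])
    (fun m hm => (cs m hm).step)
    (fun j => if Even j then P.rep else Q.rep)
    (fun j => by simp)
    (fun j => by
      by_cases hj : Even j
      · simpa [hj] using P.rep_nonzero
      · simpa [hj] using Q.rep_nonzero)
    (fun j => a (j % (2 * n))) (fun j => b (j % (2 * n))) (fun j => c (j % (2 * n)))
    (fun j => by simp) (fun j => by simp) (fun j => by simp)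
    (fun j => by
      have h1 := habc (j % (2 * n))
      rw [if_congr (hpar j) rfl rfl] at h1
      have h2 := hAmod j (-1)
      have h3 := hAmod j 0
      have h4 := hAmod j 1
      rw [add_zero, add_zero] at h3
      rw [← sub_eq_add_neg, ← sub_eq_add_neg] at h2
      rw [h2, h3, h4] at h1
      rw [c0]
      exact h1)
    (e - M)
  obtain ⟨W, hW, hf⟩ := hcore
  have hfin : FiniteDimensional K (Per K n) := Per.finiteDimensional n (by omega)
  let Φ : Dual K (Fin 4 → K) →ₗ[K] Per K n :=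
    { toFun := fun f => ⟨fun k => f (C M (2 * k + (e - M + M))).rep, by
        intro k
        show f (C M (2 * (k + n) + (e - M + M))).rep = f (C M (2 * k + (e - M + M))).rep
        rw [show 2 * (k + (n : ℤ)) + (e - M + M) = 2 * k + (e - M + M) + 2 * n by ring,
          hper M le_rfl]⟩
      map_add' := fun f g => rfl
      map_smul' := fun c f => rfl }
  have hrange : LinearMap.range Φ ≤ W := by
    rintro _ ⟨f, rfl⟩
    obtain ⟨w, hw, hwk⟩ := hf f
    have : Φ f = w := by
      apply Subtype.ext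
      funext k
      exact (hwk k).symm
    rw [this]
    exact hw
  have h1 := LinearMap.finrank_range_add_finrank_ker Φ
  have h2 := Submodule.finrank_mono hrange
  have h3 : finrank K (Dual K (Fin 4 → K)) = 4 := by
    rw [Subspace.dual_finrank_eq]
    simp
  have h4 : 0 < finrank K (LinearMap.ker Φ) := by omega
  have hbot : LinearMap.ker Φ ≠ ⊥ := by
    intro h
    rw [h, finrank_bot] at h4
    exact absurd h4 (lt_irrefl 0)
  obtain ⟨f, hfker, hfne⟩ := Submodule.exists_mem_ne_zero_of_ne_bot hbot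
  have h5 := Module.Dual.finrank_ker_add_one_of_ne_zero hfne
  refine ⟨LinearMap.ker f, ?_, ?_⟩
  · have : finrank K (Fin 4 → K) = 4 := by simp
    omega
  · intro k
    rw [rep_mem_iff, LinearMap.mem_ker]
    have h6 := congrFun (congrArg Subtype.val (LinearMap.mem_ker.1 hfker)) k
    have h7 : f (C M (2 * k + (e - M + M))).rep = 0 := h6
    rw [show 2 * k + (e - (M : ℤ) + M) = 2 * k + e by ring, cM] at h7
    exact h7

/-- **Devron property of the three-dimensional pentagram map.** -/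
theorem result {K : Type*} [Field K] (n : ℕ) (hn : 4 ≤ n) (A B : ℤ → Pt K)
    (hA : ∀ i, A (i + 2 * n) = A i) (P Q : Pt K) (hPQ : FacesAlternate A P Q)
    (hB : IsIterate (n - 3) A B) :
    (∃ S : Submodule K (Fin 4 → K), finrank K S = 3 ∧ ∀ i, Odd i → (B i).submodule ≤ S) ∧
    (∃ S : Submodule K (Fin 4 → K), finrank K S = 3 ∧ ∀ i, Even i → (B i).submodule ≤ S) := by
  constructor
  · obtain ⟨S, h1, h2⟩ := parity_coplanar n hn A B hA P Q hPQ hB 1
    refine ⟨S, h1, ?_⟩
    rintro i ⟨k, rfl⟩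
    exact h2 k
  · obtain ⟨S, h1, h2⟩ := parity_coplanar n hn A B hA P Q hPQ hB 0
    refine ⟨S, h1, ?_⟩
    rintro i ⟨k, rfl⟩
    have := h2 k
    rwa [show 2 * k + 0 = k + k by ring] at this

end Proj

end Pool.Agent.Results.MP_d88dfe_an.DevronProperty
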